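import Mathlib
import Pool.Agent.Helper59_Flow.Defs

/-!
# Cuts of the plane minus a locally finite set: geometry
-/

set_option autoImplicit false

open Set Topology Filter MeasureTheory

namespace Pool.Agent.Helper68_Cuts

open Pool.Agent.Helper59_Flow

/-! ### Lifts of circle valued maps -/

/-- A circle valued map on an open star convex set lifts to the reals. -/
theorem exists_lift {E : Type*} [NormedAddCommGroup E] [NormedSpace ℝ E] {K : Set E} (x₀ : E)
    (hx : x₀ ∈ K) (hK : StarConvex ℝ x₀ K) (hO : IsOpen K) (q : E → AddCircle (1 : ℝ))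
    (hq : ContinuousOn q K) :
    ∃ g : E → ℝ, ContinuousOn g K ∧ ∀ p ∈ K, (g p : AddCircle (1 : ℝ)) = q p := by
  have : ContractibleSpace K := hK.contractibleSpace ⟨x₀, hx⟩
  have : LocallyPathConnectedSpace K := hO.isOpenEmbedding_subtypeVal.locallyPathConnectedSpace
  obtain ⟨e₀, he₀⟩ := QuotientAddGroup.mk_surjective (q x₀)
  have hc : Continuous (K.domRestrict q) := continuousOn_iff_continuous_domRestrict.1 hq
  obtain ⟨F, ⟨-, hF⟩, -⟩ := (AddCircle.isCoveringMap_coe (1 : ℝ)).existsUnique_continuousMap_lifts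
    (⟨K.domRestrict q, hc⟩ : C(K, AddCircle (1 : ℝ))) ⟨x₀, hx⟩ e₀ he₀
  classical
  refine ⟨fun p => if h : p ∈ K then F ⟨p, h⟩ else 0, ?_, ?_⟩
  · rw [continuousOn_iff_continuous_domRestrict]
    have : K.domRestrict (fun p => if h : p ∈ K then F ⟨p, h⟩ else 0) = F := by
      funext x
      simp [x.2]
    rw [this]
    exact F.continuous
  · intro p hp
    have h1 := congrFun hF ⟨p, hp⟩
    have h2 : ((F ⟨p, hp⟩ : ℝ) : AddCircle (1 : ℝ)) = q p := h1
    simpa [hp] using h2

/-- Two lifts of a map on a preconnected set differ by an integer. -/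
theorem int_const {X : Type*} [TopologicalSpace X] {K : Set X} (hK : IsPreconnected K)
    (f g : X → ℝ) (hf : ContinuousOn f K) (hg : ContinuousOn g K)
    (h : ∀ x ∈ K, (f x : AddCircle (1 : ℝ)) = g x) :
    ∃ n : ℤ, ∀ x ∈ K, f x = g x + n := by
  rcases K.eq_empty_or_nonempty with rfl | ⟨x₀, hx₀⟩
  · exact ⟨0, fun x hx => hx.elim⟩
  have : PreconnectedSpace K := Subtype.preconnectedSpace hK
  have h0 : ((f x₀ - g x₀ : ℝ) : AddCircle (1 : ℝ)) = 0 := by
    rw [AddCircle.coe_sub, h x₀ hx₀, sub_self]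
  obtain ⟨n, hn⟩ := (AddCircle.coe_eq_zero_iff (1 : ℝ)).1 h0
  refine ⟨n, ?_⟩
  have hn' : f x₀ = g x₀ + n := by
    have : (n : ℝ) = f x₀ - g x₀ := by simpa using hn
    linarith
  have key : K.domRestrict f = fun x : K => g x + n := by
    refine (AddCircle.isCoveringMap_coe (1 : ℝ)).eq_of_comp_eq
      (continuousOn_iff_continuous_domRestrict.1 hf)
      ((continuousOn_iff_continuous_domRestrict.1 hg).add continuous_const) ?_ ⟨x₀, hx₀⟩ hn'
    funext x
    change ((f x : ℝ) : AddCircle (1 : ℝ)) = ((g x + n : ℝ) : AddCircle (1 : ℝ))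
    rw [AddCircle.coe_add, h x x.2]
    have : ((n : ℝ) : AddCircle (1 : ℝ)) = 0 :=
      (AddCircle.coe_eq_zero_iff (1 : ℝ)).2 ⟨n, by simp⟩
    rw [this, add_zero]
  intro x hx
  exact congrFun key ⟨x, hx⟩

/-! ### Rays -/

/-- The coordinate of `z` with origin `c` and unit `s - c`. -/
noncomputable def zeta (c s z : ℂ) : ℂ := (z - c) / (s - c)

/-- The ray which starts in `s` and points away from `c`. -/
def ray (c s : ℂ) : Set ℂ := {z | 1 ≤ (zeta c s z).re ∧ (zeta c s z).im = 0}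

theorem continuous_zeta (c s : ℂ) : Continuous (zeta c s) := by
  unfold zeta
  fun_prop

theorem eq_of_zeta {c s z : ℂ} (h : s ≠ c) : z = c + zeta c s z * (s - c) := by
  unfold zeta
  field_simp [sub_ne_zero.2 h]
  ring

theorem zeta_mk {c s : ℂ} (h : s ≠ c) (w : ℂ) : zeta c s (c + w * (s - c)) = w := by
  unfold zeta
  field_simp [sub_ne_zero.2 h]
  ring

theorem zeta_self {c s : ℂ} (h : s ≠ c) : zeta c s s = 1 := by
  unfold zeta
  exact div_self (sub_ne_zero.2 h)

theorem zeta_center (c s : ℂ) : zeta c s c = 0 := by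
  simp [zeta]

theorem center_notMem_ray (c s : ℂ) : c ∉ ray c s := by
  intro h
  have := h.1
  rw [zeta_center] at this
  norm_num at this

theorem self_mem_ray {c s : ℂ} (h : s ≠ c) : s ∈ ray c s := by
  refine ⟨?_, ?_⟩ <;> rw [zeta_self h] <;> simp

theorem isClosed_ray (c s : ℂ) : IsClosed (ray c s) := by
  have h1 : IsClosed {z | 1 ≤ (zeta c s z).re} :=
    isClosed_le continuous_const (Complex.continuous_re.comp (continuous_zeta c s))
  have h2 : IsClosed {z | (zeta c s z).im = 0} :=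
    isClosed_eq (Complex.continuous_im.comp (continuous_zeta c s)) continuous_const
  exact h1.inter h2

theorem norm_le_of_re {c s z : ℂ} (h : s ≠ c) (h1 : 1 ≤ (zeta c s z).re) :
    ‖s - c‖ ≤ ‖z - c‖ := by
  have h2 : 1 ≤ ‖zeta c s z‖ := h1.trans ((le_abs_self _).trans (Complex.abs_re_le_norm _))
  have h3 : ‖z - c‖ = ‖zeta c s z‖ * ‖s - c‖ := by
    conv_lhs => rw [eq_of_zeta (z := z) h]
    simp
  rw [h3]
  nlinarith [norm_nonneg (s - c)]

/-- Sets which are far from the centre form a locally finite family. -/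
theorem locallyFinite_of_re {S : Set ℂ} (hfin : ∀ R : ℝ, (S ∩ Metric.closedBall 0 R).Finite)
    {c : ℂ} (hc : c ∉ S) (T : S → Set ℂ) (hT : ∀ s : S, ∀ z ∈ T s, 1 ≤ (zeta c s z).re) :
    LocallyFinite T := by
  intro z
  refine ⟨Metric.ball c (‖z - c‖ + 1), Metric.isOpen_ball.mem_nhds ?_, ?_⟩
  · rw [Metric.mem_ball, dist_eq_norm]
    linarith
  · have hf := hfin (‖c‖ + (‖z - c‖ + 1))
    refine (hf.preimage (f := (Subtype.val : S → ℂ)) Subtype.val_injective.injOn).subset ?_
    rintro s ⟨y, hy, hyb⟩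
    refine ⟨s.2, ?_⟩
    have hsc : (s : ℂ) ≠ c := fun h => hc (h ▸ s.2)
    have h1 := norm_le_of_re hsc (hT s y hy)
    rw [Metric.mem_ball, dist_eq_norm] at hyb
    rw [Metric.mem_closedBall, dist_zero_right]
    calc ‖(s : ℂ)‖ = ‖c + (s - c)‖ := by ring_nf
      _ ≤ ‖c‖ + ‖(s : ℂ) - c‖ := norm_add_le _ _
      _ ≤ _ := by linarith

/-! ### The centre -/

theorem countable_of_finite {S : Set ℂ}
    (hfin : ∀ R : ℝ, (S ∩ Metric.closedBall 0 R).Finite) : S.Countable := by
  have h : S ⊆ ⋃ n : ℕ, S ∩ Metric.closedBall (0 : ℂ) (n : ℝ) := by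
    intro s hs
    obtain ⟨n, hn⟩ := exists_nat_ge ‖s‖
    exact mem_iUnion.2 ⟨n, hs, by simpa using hn⟩
  exact (countable_iUnion fun n : ℕ => (hfin n).countable).mono h

theorem line_null {s s' : ℂ} (h : s ≠ s') : volume (line[ℝ, s, s'] : Set ℂ) = 0 := by
  apply Measure.addHaar_affineSubspace
  intro htop
  have h1 : Collinear ℝ ({s, s'} : Set ℂ) := collinear_pair ℝ s s'
  have h2 : Module.finrank ℝ (vectorSpan ℝ ({s, s'} : Set ℂ)) ≤ 1 :=
    collinear_iff_finrank_le_one.1 h1
  have h3 : vectorSpan ℝ ({s, s'} : Set ℂ) = ⊤ := by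
    rw [← direction_affineSpan, htop, AffineSubspace.direction_top]
  rw [h3, finrank_top, Complex.finrank_real_complex] at h2
  omega

theorem exists_center {S : Set ℂ} (hS : S.Countable) :
    ∃ c, c ∉ S ∧ ∀ s ∈ S, ∀ s' ∈ S, s ≠ s' → Disjoint (ray c s) (ray c s') := by
  classical
  set B : Set ℂ := S ∪ ⋃ s ∈ S, ⋃ s' ∈ S, (if s = s' then ∅ else (line[ℝ, s, s'] : Set ℂ)) with hB
  have hB0 : volume B = 0 := by
    rw [hB]
    refine measure_union_null (hS.measure_zero _) ?_
    refine (measure_biUnion_null_iff hS).2 fun s _ => ?_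
    refine (measure_biUnion_null_iff hS).2 fun s' _ => ?_
    split_ifs with h
    · simp
    · exact line_null h
  have hne : B ≠ univ := by
    intro h
    rw [h] at hB0
    exact (isOpen_univ.measure_pos volume (univ_nonempty (α := ℂ))).ne' hB0
  obtain ⟨c, hc⟩ := (ne_univ_iff_exists_notMem B).1 hne
  have hcS : c ∉ S := fun h => hc (Or.inl h)
  refine ⟨c, hcS, fun s hs s' hs' hss => ?_⟩
  rw [Set.disjoint_left]
  rintro z ⟨h1, h1'⟩ ⟨h2, h2'⟩
  apply hc
  right
  refine mem_iUnion₂.2 ⟨s, hs, mem_iUnion₂.2 ⟨s', hs', ?_⟩⟩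
  rw [if_neg hss]
  have hsc : s ≠ c := fun h => hcS (h ▸ hs)
  have hsc' : s' ≠ c := fun h => hcS (h ▸ hs')
  set x := (zeta c s z).re with hx
  set x' := (zeta c s' z).re with hx'
  have e1 : zeta c s z = (x : ℂ) := Complex.ext (by simp [hx]) (by simp [h1'])
  have e2 : zeta c s' z = (x' : ℂ) := Complex.ext (by simp [hx']) (by simp [h2'])
  have z1 := eq_of_zeta (z := z) hsc
  have z2 := eq_of_zeta (z := z) hsc'
  rw [e1] at z1
  rw [e2] at z2
  have h3 : (x : ℂ) * (s - c) = x' * (s' - c) := by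
    have := z1.symm.trans z2
    exact add_left_cancel this
  have hxx : x ≠ x' := by
    intro h
    rw [h] at h3
    have hx0 : (x' : ℂ) ≠ 0 := by
      rw [Ne, Complex.ofReal_eq_zero]
      intro h0
      rw [h0] at h2
      norm_num at h2
    have := mul_left_cancel₀ hx0 h3
    exact hss (sub_left_injective this)
  have hd : (x : ℂ) - x' ≠ 0 := by
    rw [← Complex.ofReal_sub, Ne, Complex.ofReal_eq_zero]
    exact sub_ne_zero.2 hxx
  have hc' : c = AffineMap.lineMap s s' (-(x' / (x - x')) : ℝ) := by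
    rw [AffineMap.lineMap_apply]
    simp only [vsub_eq_sub, vadd_eq_add, Complex.real_smul, Complex.ofReal_neg, Complex.ofReal_div,
      Complex.ofReal_sub]
    field_simp
    linear_combination -h3
  rw [hc']
  exact AffineMap.lineMap_mem_affineSpan_pair _ _ _

end Pool.Agent.Helper68_Cuts
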