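import Pool.Agent.Helper68_Cuts.Strip

/-!
# Cuts of the plane minus a locally finite set: the statement of module B
-/

set_option autoImplicit false

open Set Topology Filter MeasureTheory

namespace Pool.Agent.Helper68_Cuts

open Pool.Agent.Helper59_Flow

variable {S : Set ℂ} {c : ℂ}

/-- The transition function. -/
noncomputable def Hf (t : ℝ) : ℝ := max 0 (min 1 (1 / 2 + t))

theorem continuous_Hf : Continuous Hf := by
  unfold Hf
  fun_prop

theorem Hf_of_le {t : ℝ} (ht : 1 / 2 ≤ t) : Hf t = 1 := by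
  unfold Hf
  rw [min_eq_left (by linarith)]
  exact max_eq_right zero_le_one

theorem Hf_of_ge {t : ℝ} (ht : t ≤ -(1 / 2)) : Hf t = 0 := by
  unfold Hf
  exact max_eq_left ((min_le_right _ _).trans (by linarith))

theorem coe_int (n : ℤ) : ((n : ℝ) : AddCircle (1 : ℝ)) = 0 :=
  (AddCircle.coe_eq_zero_iff (1 : ℝ)).2 ⟨n, by simp⟩

open Classical in
/-- The circle valued function with support in the core of the strip of `s`. -/
noncomputable def omg (S : Set ℂ) (c s : ℂ) (z : ℂ) : AddCircle (1 : ℝ) :=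
  if z ∈ strip S c s then ((Hf (tco S c s z) : ℝ) : AddCircle (1 : ℝ)) else 0

theorem omg_of_mem {s z : ℂ} (hz : z ∈ strip S c s) :
    omg S c s z = ((Hf (tco S c s z) : ℝ) : AddCircle (1 : ℝ)) := if_pos hz

theorem omg_of_notMem {s z : ℂ} (hz : z ∉ strip S c s) : omg S c s z = 0 := if_neg hz

theorem mem_strip_of_omg {s z : ℂ} (hz : omg S c s z ≠ 0) : z ∈ strip S c s := by
  by_contra hcon
  exact hz (omg_of_notMem hcon)

namespace Centre

variable (h : Centre S c)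

include h

theorem omg_of_notMem_core {s z : ℂ} (hs : s ∈ S) (hz : z ∉ core S c s) : omg S c s z = 0 := by
  by_cases hz' : z ∈ strip S c s
  · rw [omg_of_mem hz']
    have h1 := h.half_lt_of_notMem_core hs hz' hz
    rcases lt_abs.1 h1 with h2 | h2
    · rw [Hf_of_le h2.le]
      simp
    · rw [Hf_of_ge (by linarith)]
      simp
  · exact omg_of_notMem hz'

theorem continuousAt_omg {s z : ℂ} (hs : s ∈ S) (hz : z ≠ s) : ContinuousAt (omg S c s) z := by
  by_cases hz' : z ∈ core S c s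
  · have h1 := h.mem_strip_of_mem_core hs hz' hz
    have h2 : strip S c s ∈ 𝓝 z := (isOpen_strip s).mem_nhds h1
    have h3 : ContinuousAt (fun z => ((Hf (tco S c s z) : ℝ) : AddCircle (1 : ℝ))) z := by
      have h4 : ContinuousAt (tco S c s) z := (h.continuousOn_tco hs).continuousAt h2
      have h5 : ContinuousAt (fun z => Hf (tco S c s z)) z :=
        ContinuousAt.comp (g := Hf) continuous_Hf.continuousAt h4
      exact ContinuousAt.comp (g := fun r : ℝ => (r : AddCircle (1 : ℝ)))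
        (AddCircle.continuous_mk' (1 : ℝ)).continuousAt h5
    refine h3.congr ?_
    filter_upwards [h2] with w hw
    exact (omg_of_mem hw).symm
  · have h2 : (core S c s)ᶜ ∈ 𝓝 z := (isClosed_core s).isOpen_compl.mem_nhds hz'
    refine (continuousAt_const (y := (0 : AddCircle (1 : ℝ)))).congr ?_
    filter_upwards [h2] with w hw
    exact (h.omg_of_notMem_core hs hw).symm

end Centre

/-- Parameters of the strip. -/
def PP : Set (ℝ × ℝ × ℂ) := Ioi (1 : ℝ) ×ˢ (Ioo (-1 : ℝ) 1 ×ˢ (univ : Set ℂ))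

/-- Parameters of the upper half of the strip. -/
def PU : Set (ℝ × ℝ × ℂ) := Ioi (1 : ℝ) ×ˢ (Ioo (0 : ℝ) 1 ×ˢ (univ : Set ℂ))

/-- Parameters of the lower half of the strip. -/
def PL : Set (ℝ × ℝ × ℂ) := Ioi (1 : ℝ) ×ˢ (Ioo (-1 : ℝ) 0 ×ˢ (univ : Set ℂ))

theorem PU_sub : PU ⊆ PP := by
  rintro y ⟨h1, h2, h3⟩
  exact ⟨h1, ⟨by linarith [h2.1], h2.2⟩, h3⟩

theorem PL_sub : PL ⊆ PP := by
  rintro y ⟨h1, h2, h3⟩
  exact ⟨h1, ⟨h2.1, by linarith [h2.2]⟩, h3⟩

/-- The map from the parameters to the strip. -/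
noncomputable def Phi (S : Set ℂ) (c s : ℂ) (y : ℝ × ℝ × ℂ) : ℂ × ℂ :=
  (pt S c s y.1 y.2.1, y.2.2)

/-- The map from the strip to the parameters. -/
noncomputable def Psi (S : Set ℂ) (c s : ℂ) (p : ℂ × ℂ) : ℝ × ℝ × ℂ :=
  ((zeta c s p.1).re, tco S c s p.1, p.2)

/-- The complement of the rays. -/
def OO (S : Set ℂ) (c : ℂ) : Set (ℂ × ℂ) := {p | p.1 ∉ ⋃ s : S, ray c (s : ℂ)}

theorem continuous_Phi (s : ℂ) : Continuous (Phi S c s) := by
  unfold Phi
  exact ((continuous_pt s).comp (by fun_prop : Continuous fun y : ℝ × ℝ × ℂ => (y.1, y.2.1))).prodMk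
    (by fun_prop)

namespace Centre

variable (h : Centre S c)

include h

theorem isOpen_OO : IsOpen (OO S c) := h.isClosed_rays.isOpen_compl.preimage continuous_fst

theorem OO_sub {p : ℂ × ℂ} (hp : p ∈ OO S c) : p.1 ∉ S := by
  intro hs
  exact hp (mem_iUnion.2 ⟨⟨p.1, hs⟩, self_mem_ray (h.ne hs)⟩)

omit h in
theorem centre_mem : ((c, 0) : ℂ × ℂ) ∈ OO S c := by
  intro hmem
  obtain ⟨s, hs⟩ := mem_iUnion.1 hmem
  exact center_notMem_ray c s hs

theorem starConvex_OO : StarConvex ℝ ((c, 0) : ℂ × ℂ) (OO S c) := by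
  rintro ⟨z, w⟩ hp a b ha hb hab hmem
  obtain ⟨s, hs1, hs2⟩ := mem_iUnion.1 hmem
  have hz : zeta c s (a • ((c, 0) : ℂ × ℂ) + b • (z, w)).1 = (b : ℂ) * zeta c s z := by
    have e : (a • ((c, 0) : ℂ × ℂ) + b • (z, w)).1 = (a : ℂ) * c + b * z := by simp
    rw [e]
    have ha' : (a : ℂ) = 1 - b := by
      have : a = 1 - b := by linarith
      rw [this]; push_cast; ring
    unfold zeta
    rw [ha']
    ring
  rw [hz] at hs1 hs2
  have r1 : ((b : ℂ) * zeta c s z).re = b * (zeta c s z).re := by simp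
  have r2 : ((b : ℂ) * zeta c s z).im = b * (zeta c s z).im := by simp
  rw [r1] at hs1
  rw [r2] at hs2
  have hb0 : 0 < b := by
    rcases hb.eq_or_lt with h0 | h0
    · rw [← h0, zero_mul] at hs1
      linarith
    · exact h0
  apply hp
  refine mem_iUnion.2 ⟨s, ?_, ?_⟩
  · have hb1 : b ≤ 1 := by linarith
    by_contra hcon
    push Not at hcon
    nlinarith
  · rcases mul_eq_zero.1 hs2 with h1 | h1
    · exact absurd h1 hb0.ne'
    · exact h1

theorem Phi_mem {s : ℂ} (hs : s ∈ S) {y : ℝ × ℝ × ℂ} (hy : y ∈ PP) :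
    (Phi S c s y).1 ∈ strip S c s :=
  h.pt_mem_strip hs hy.1 (abs_lt.2 hy.2.1)

theorem Phi_mem_OO {s : ℂ} (hs : s ∈ S) {y : ℝ × ℝ × ℂ} (hy : y ∈ PP) (h0 : y.2.1 ≠ 0) :
    Phi S c s y ∈ OO S c :=
  h.pt_notMem_rays hs hy.1 (abs_lt.2 hy.2.1) h0

theorem Psi_mem {s : ℂ} (hs : s ∈ S) {p : ℂ × ℂ} (hp : p.1 ∈ strip S c s) : Psi S c s p ∈ PP :=
  ⟨one_lt_of_mem_strip hp, abs_lt.1 (h.abs_tco_lt hs hp), mem_univ _⟩

theorem Phi_Psi {s : ℂ} (hs : s ∈ S) {p : ℂ × ℂ} (hp : p.1 ∈ strip S c s) :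
    Phi S c s (Psi S c s p) = p := by
  unfold Phi Psi
  simp only
  rw [h.pt_tco hs hp]

theorem continuousAt_Psi {s : ℂ} (hs : s ∈ S) {p : ℂ × ℂ} (hp : p.1 ∈ strip S c s) :
    ContinuousAt (Psi S c s) p := by
  unfold Psi
  have h1 : ContinuousAt (fun p : ℂ × ℂ => (zeta c s p.1).re) p :=
    (Complex.continuous_re.comp ((continuous_zeta c s).comp continuous_fst)).continuousAt
  have h2 : ContinuousAt (fun p : ℂ × ℂ => tco S c s p.1) p :=
    ContinuousAt.comp (g := tco S c s) (f := fun p : ℂ × ℂ => p.1)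
      ((h.continuousOn_tco hs).continuousAt ((isOpen_strip s).mem_nhds hp)) continuousAt_fst
  exact h1.prodMk (h2.prodMk continuousAt_snd)

/-- Lifts over one strip. -/
theorem strip_lift {s : ℂ} (hs : s ∈ S) (qe : ℂ × ℂ → AddCircle (1 : ℝ))
    (hqe : ContinuousOn qe {p | p.1 ∉ S}) (g0 : ℂ × ℂ → ℝ) (hg0 : ContinuousOn g0 (OO S c))
    (hg0q : ∀ p ∈ OO S c, (g0 p : AddCircle (1 : ℝ)) = qe p) :
    ∃ (g : ℝ × ℝ × ℂ → ℝ) (nu nl : ℤ), ContinuousOn g PP ∧
      (∀ y ∈ PP, (g y : AddCircle (1 : ℝ)) = qe (Phi S c s y)) ∧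
      (∀ y ∈ PU, g0 (Phi S c s y) = g y + nu) ∧ (∀ y ∈ PL, g0 (Phi S c s y) = g y + nl) := by
  have hPP : Convex ℝ PP := (convex_Ioi 1).prod ((convex_Ioo _ _).prod convex_univ)
  have hPU : Convex ℝ PU := (convex_Ioi 1).prod ((convex_Ioo _ _).prod convex_univ)
  have hPL : Convex ℝ PL := (convex_Ioi 1).prod ((convex_Ioo _ _).prod convex_univ)
  have hopen : IsOpen PP := isOpen_Ioi.prod (isOpen_Ioo.prod isOpen_univ)
  have hmem : ((2, 0, 0) : ℝ × ℝ × ℂ) ∈ PP := by
    refine ⟨?_, ⟨?_, ?_⟩, mem_univ _⟩ <;> norm_num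
  have hcont : ContinuousOn (fun y => qe (Phi S c s y)) PP := by
    refine ContinuousOn.comp (t := {p | p.1 ∉ S}) hqe (continuous_Phi s).continuousOn ?_
    intro y hy
    exact h.notMem_of_mem_strip hs (h.Phi_mem hs hy)
  obtain ⟨g, hg1, hg2⟩ := exists_lift (2, 0, 0) hmem (hPP.starConvex hmem) hopen _ hcont
  have hU : ∀ y ∈ PU, Phi S c s y ∈ OO S c := fun y hy =>
    h.Phi_mem_OO hs (PU_sub hy) (ne_of_gt hy.2.1.1)
  have hL : ∀ y ∈ PL, Phi S c s y ∈ OO S c := fun y hy =>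
    h.Phi_mem_OO hs (PL_sub hy) (ne_of_lt hy.2.1.2)
  obtain ⟨nu, hnu⟩ := int_const hPU.isPreconnected (fun y => g0 (Phi S c s y)) g
    (hg0.comp (continuous_Phi s).continuousOn hU) (hg1.mono PU_sub) (fun y hy => by
      rw [hg0q _ (hU y hy), hg2 y (PU_sub hy)])
  obtain ⟨nl, hnl⟩ := int_const hPL.isPreconnected (fun y => g0 (Phi S c s y)) g
    (hg0.comp (continuous_Phi s).continuousOn hL) (hg1.mono PL_sub) (fun y hy => by
      rw [hg0q _ (hL y hy), hg2 y (PL_sub hy)])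
  exact ⟨g, nu, nl, hg1, hg2, hnu, hnl⟩

/-- The decomposition. -/
theorem decomposition (q : N S → AddCircle (1 : ℝ)) (hq : Continuous q) :
    ∃ (x : S → ℤ) (f : N S → ℝ), Continuous f ∧
      (∀ (p : N S) (s : S), omg S c (s : ℂ) p.1.1 ≠ 0 →
        q p = (f p : AddCircle (1 : ℝ)) + x s • omg S c (s : ℂ) p.1.1) ∧
      (∀ p : N S, (∀ s : S, omg S c (s : ℂ) p.1.1 = 0) → q p = (f p : AddCircle (1 : ℝ))) := by
  classical
  obtain ⟨qe, hqe⟩ : ∃ qe : ℂ × ℂ → AddCircle (1 : ℝ), ∀ p : N S, qe p.1 = q p :=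
    ⟨fun p => if hp : p.1 ∉ S then q ⟨p, hp⟩ else 0, fun p => by
      have := p.2
      simp [this]⟩
  have hqec : ContinuousOn qe {p | p.1 ∉ S} := by
    rw [continuousOn_iff_continuous_domRestrict]
    have : ({p : ℂ × ℂ | p.1 ∉ S}).domRestrict qe = q := by
      funext p
      exact hqe p
    rw [this]
    exact hq
  have hOS : OO S c ⊆ {p | p.1 ∉ S} := fun p hp => h.OO_sub hp
  obtain ⟨g0, hg0, hg0q⟩ := exists_lift (c, 0) centre_mem h.starConvex_OO h.isOpen_OO qe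
    (hqec.mono hOS)
  have hlift := fun s : S => h.strip_lift s.2 qe hqec g0 hg0 hg0q
  choose g nu nl hg1 hg2 hg3 hg4 using hlift
  -- the formula on the strip
  let F : S → ℂ × ℂ → ℝ := fun s p =>
    g s (Psi S c s p) + nl s + Hf (tco S c s p.1) * ((nu s : ℝ) - nl s)
  let fe : ℂ × ℂ → ℝ := fun p =>
    if hp : ∃ s : S, p.1 ∈ strip S c (s : ℂ) then F hp.choose p else g0 p
  have hfe : ∀ (s : S) (p : ℂ × ℂ), p.1 ∈ strip S c (s : ℂ) → fe p = F s p := by
    intro s p hp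
    have hex : ∃ s : S, p.1 ∈ strip S c (s : ℂ) := ⟨s, hp⟩
    have he : hex.choose = s :=
      Subtype.ext (h.strip_disjoint hex.choose.2 s.2 hex.choose_spec hp)
    change (if hp : ∃ s : S, p.1 ∈ strip S c (s : ℂ) then F hp.choose p else g0 p) = _
    rw [dif_pos hex, he]
  have hfe0 : ∀ p : ℂ × ℂ, p.1 ∉ ⋃ s : S, core S c (s : ℂ) → fe p = g0 p := by
    intro p hp
    by_cases hex : ∃ s : S, p.1 ∈ strip S c (s : ℂ)
    · obtain ⟨s, hs⟩ := hex
      rw [hfe s p hs]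
      have hnc : p.1 ∉ core S c (s : ℂ) := fun hc => hp (mem_iUnion.2 ⟨s, hc⟩)
      have h1 := h.half_lt_of_notMem_core s.2 hs hnc
      have h2 := h.Psi_mem s.2 hs
      have h3 := h.Phi_Psi s.2 hs
      rcases lt_abs.1 h1 with h4 | h4
      · have hU : Psi S c s p ∈ PU := by
          refine ⟨h2.1, ⟨?_, h2.2.1.2⟩, h2.2.2⟩
          have : (0 : ℝ) < tco S c s p.1 := by linarith
          exact this
        have h5 := hg3 s _ hU
        rw [h3] at h5
        change g s (Psi S c s p) + nl s + Hf (tco S c s p.1) * ((nu s : ℝ) - nl s) = g0 p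
        rw [h5, Hf_of_le h4.le]
        ring
      · have hL : Psi S c s p ∈ PL := by
          refine ⟨h2.1, ⟨h2.2.1.1, ?_⟩, h2.2.2⟩
          have : tco S c s p.1 < (0 : ℝ) := by linarith
          exact this
        have h5 := hg4 s _ hL
        rw [h3] at h5
        change g s (Psi S c s p) + nl s + Hf (tco S c s p.1) * ((nu s : ℝ) - nl s) = g0 p
        rw [h5, Hf_of_ge (by linarith)]
        ring
    · change (if hp : ∃ s : S, p.1 ∈ strip S c (s : ℂ) then F hp.choose p else g0 p) = _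
      rw [dif_neg hex]
  have hcores : ∀ p : ℂ × ℂ, p.1 ∉ ⋃ s : S, core S c (s : ℂ) → p ∈ OO S c := by
    intro p hp hmem
    obtain ⟨s, hs⟩ := mem_iUnion.1 hmem
    exact hp (mem_iUnion.2 ⟨s, h.ray_subset_core s.2 hs⟩)
  have hFc : ∀ (s : S) (p : ℂ × ℂ), p.1 ∈ strip S c (s : ℂ) → ContinuousAt (F s) p := by
    intro s p hp
    have h1 := h.continuousAt_Psi s.2 hp
    have hopen : IsOpen PP := isOpen_Ioi.prod (isOpen_Ioo.prod isOpen_univ)
    have h2 : ContinuousAt (fun p => g s (Psi S c s p)) p :=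
      ContinuousAt.comp (g := g s) (f := Psi S c s)
        ((hg1 s).continuousAt (hopen.mem_nhds (h.Psi_mem s.2 hp))) h1
    have h3 : ContinuousAt (fun p : ℂ × ℂ => tco S c s p.1) p :=
      ContinuousAt.comp (g := tco S c s) (f := fun p : ℂ × ℂ => p.1)
        ((h.continuousOn_tco s.2).continuousAt ((isOpen_strip _).mem_nhds hp)) continuousAt_fst
    have h4 : ContinuousAt (fun p : ℂ × ℂ => Hf (tco S c s p.1)) p :=
      ContinuousAt.comp (g := Hf) continuous_Hf.continuousAt h3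
    exact (h2.add continuousAt_const).add (h4.mul continuousAt_const)
  have hfec : ∀ p : ℂ × ℂ, p.1 ∉ S → ContinuousAt fe p := by
    intro p hp
    by_cases hc : p.1 ∈ ⋃ s : S, core S c (s : ℂ)
    · obtain ⟨s, hs⟩ := mem_iUnion.1 hc
      have h1 : p.1 ∈ strip S c (s : ℂ) :=
        h.mem_strip_of_mem_core s.2 hs (fun e => hp (e ▸ s.2))
      refine (hFc s p h1).congr ?_
      have h2 : ∀ᶠ p' in 𝓝 p, p'.1 ∈ strip S c (s : ℂ) :=
        continuousAt_fst.eventually ((isOpen_strip (s : ℂ)).mem_nhds h1)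
      filter_upwards [h2] with p' hp'
      exact (hfe s p' hp').symm
    · have h1 : ContinuousAt g0 p := hg0.continuousAt (h.isOpen_OO.mem_nhds (hcores p hc))
      refine h1.congr ?_
      have h2 : ∀ᶠ p' in 𝓝 p, p'.1 ∉ ⋃ s : S, core S c (s : ℂ) :=
        continuousAt_fst.eventually (h.isClosed_cores.isOpen_compl.mem_nhds hc)
      filter_upwards [h2] with p' hp'
      exact (hfe0 p' hp').symm
  have hstrip : ∀ (p : N S) (s : S), p.1.1 ∈ strip S c (s : ℂ) →
      q p = (fe p.1 : AddCircle (1 : ℝ)) + (nl s - nu s) • omg S c (s : ℂ) p.1.1 := by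
    intro p s hp
    have h1 := hg2 s _ (h.Psi_mem s.2 hp)
    rw [h.Phi_Psi s.2 hp, hqe p] at h1
    rw [← h1, hfe s p.1 hp, omg_of_mem hp]
    have h2 : F s p.1 = g s (Psi S c s p.1) + nl s + ((nu s - nl s : ℤ)) • Hf (tco S c s p.1.1) := by
      change g s (Psi S c s p.1) + nl s + Hf (tco S c s p.1.1) * ((nu s : ℝ) - nl s) = _
      rw [zsmul_eq_mul]
      push_cast
      ring
    rw [h2, AddCircle.coe_add, AddCircle.coe_add, coe_int, add_zero, AddCircle.coe_zsmul,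
      add_assoc, ← add_zsmul]
    have h3 : nu s - nl s + (nl s - nu s) = 0 := by ring
    rw [h3, zero_zsmul, add_zero]
  refine ⟨fun s => nl s - nu s, fun p => fe p.1, ?_, ?_, ?_⟩
  · rw [continuous_iff_continuousAt]
    intro p
    exact ContinuousAt.comp (g := fe) (f := (Subtype.val : N S → ℂ × ℂ)) (hfec p.1 p.2)
      continuous_subtype_val.continuousAt
  · intro p s hps
    exact hstrip p s (mem_strip_of_omg hps)
  · intro p hp
    by_cases hex : ∃ s : S, p.1.1 ∈ strip S c (s : ℂ)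
    · obtain ⟨s, hs⟩ := hex
      have := hstrip p s hs
      rwa [hp s, smul_zero, add_zero] at this
    · have hc : p.1.1 ∉ ⋃ s : S, core S c (s : ℂ) := by
        intro hc
        obtain ⟨s, hs⟩ := mem_iUnion.1 hc
        exact hex ⟨s, h.mem_strip_of_mem_core s.2 hs (fun e => p.2 (e ▸ s.2))⟩
      change q p = ((fe p.1 : ℝ) : AddCircle (1 : ℝ))
      rw [hfe0 p.1 hc, hg0q _ (hcores _ hc), hqe]

end Centre

/-- MODULE B. -/
theorem bStatement : BStatement := by
  intro S _ hfin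
  obtain ⟨c, hcS, hdisj⟩ := exists_center (countable_of_finite hfin)
  have h : Centre S c := ⟨hfin, hcS, hdisj⟩
  refine ⟨fun s p => omg S c (s : ℂ) p.1.1, ?_, ?_, ?_, ?_⟩
  · intro s
    rw [continuous_iff_continuousAt]
    intro p
    exact ContinuousAt.comp (g := omg S c (s : ℂ)) (f := fun p : N S => p.1.1)
      (h.continuousAt_omg s.2 (fun e => p.2 (e ▸ s.2)))
      (continuous_fst.comp continuous_subtype_val).continuousAt
  · intro p
    obtain ⟨V, hV, hVf⟩ := h.locallyFinite_strip p.1.1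
    refine ⟨(fun p : N S => p.1.1) ⁻¹' V,
      (continuous_fst.comp continuous_subtype_val).continuousAt.preimage_mem_nhds hV,
      hVf.subset ?_⟩
    rintro s ⟨p', hp', hne⟩
    exact ⟨p'.1.1, mem_strip_of_omg hne, hp'⟩
  · intro p s s' h1 h2
    exact Subtype.ext (h.strip_disjoint s.2 s'.2 (mem_strip_of_omg h1) (mem_strip_of_omg h2))
  · intro q hq
    exact h.decomposition q hq

end Pool.Agent.Helper68_Cuts
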