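import Pool.Agent.Helper68_Cuts.Geom

/-!
# Cuts of the plane minus a locally finite set: strips around the rays
-/

set_option autoImplicit false

open Set Topology Filter MeasureTheory

namespace Pool.Agent.Helper68_Cuts

open Pool.Agent.Helper59_Flow

/-- A centre `c` from which all points of `S` are seen under different directions. -/
structure Centre (S : Set ℂ) (c : ℂ) : Prop where
  fin : ∀ R : ℝ, (S ∩ Metric.closedBall 0 R).Finite
  notMem : c ∉ S
  disj : ∀ s ∈ S, ∀ s' ∈ S, s ≠ s' → Disjoint (ray c s) (ray c s')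

variable {S : Set ℂ} {c : ℂ}

/-- The union of the other rays and the centre. -/
def others (S : Set ℂ) (c s : ℂ) : Set ℂ :=
  {c} ∪ ⋃ s' : {s' : S // (s' : ℂ) ≠ s}, ray c (s' : S)

/-- Half of the width of the strip around the ray of `s` at the coordinate `x`. -/
noncomputable def eta (S : Set ℂ) (c s : ℂ) (x : ℝ) : ℝ :=
  min (x - 1) (Metric.infDist (c + (x : ℂ) * (s - c)) (others S c s) / (2 * ‖s - c‖))

/-- The open strip around the ray of `s`. -/
def strip (S : Set ℂ) (c s : ℂ) : Set ℂ :=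
  {z | |(zeta c s z).im| < eta S c s (zeta c s z).re}

/-- The closed core of the strip. -/
def core (S : Set ℂ) (c s : ℂ) : Set ℂ :=
  {z | 2 * |(zeta c s z).im| ≤ eta S c s (zeta c s z).re}

theorem others_nonempty (s : ℂ) : (others S c s).Nonempty := ⟨c, Or.inl rfl⟩

theorem eta_le (s : ℂ) (x : ℝ) : eta S c s x ≤ x - 1 := min_le_left _ _

theorem continuous_eta (s : ℂ) : Continuous (eta S c s) := by
  unfold eta
  have h1 : Continuous fun x : ℝ => Metric.infDist (c + (x : ℂ) * (s - c)) (others S c s) :=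
    (Metric.continuous_infDist_pt _).comp (by fun_prop)
  exact (by fun_prop : Continuous fun x : ℝ => x - 1).min (h1.div_const _)

theorem isOpen_strip (s : ℂ) : IsOpen (strip S c s) := by
  refine isOpen_lt ?_ ?_
  · exact (Complex.continuous_im.comp (continuous_zeta c s)).abs
  · exact (continuous_eta s).comp (Complex.continuous_re.comp (continuous_zeta c s))

theorem isClosed_core (s : ℂ) : IsClosed (core S c s) := by
  refine isClosed_le ?_ ?_
  · exact (Complex.continuous_im.comp (continuous_zeta c s)).abs.const_mul 2 |>.congr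
      fun _ => rfl
  · exact (continuous_eta s).comp (Complex.continuous_re.comp (continuous_zeta c s))

theorem one_lt_of_mem_strip {s z : ℂ} (h : z ∈ strip S c s) : 1 < (zeta c s z).re := by
  have h1 : |(zeta c s z).im| < eta S c s (zeta c s z).re := h
  have := eta_le (S := S) (c := c) s (zeta c s z).re
  have := abs_nonneg (zeta c s z).im
  linarith

theorem one_le_of_mem_core {s z : ℂ} (h : z ∈ core S c s) : 1 ≤ (zeta c s z).re := by
  have h1 : 2 * |(zeta c s z).im| ≤ eta S c s (zeta c s z).re := h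
  have := eta_le (S := S) (c := c) s (zeta c s z).re
  have := abs_nonneg (zeta c s z).im
  linarith

namespace Centre

variable (h : Centre S c)

include h

theorem ne {s : ℂ} (hs : s ∈ S) : s ≠ c := fun e => h.notMem (e ▸ hs)

theorem norm_pos {s : ℂ} (hs : s ∈ S) : 0 < ‖s - c‖ := norm_pos_iff.2 (sub_ne_zero.2 (h.ne hs))

theorem isClosed_others (s : ℂ) : IsClosed (others S c s) := by
  refine isClosed_singleton.union ?_
  have h1 : LocallyFinite (fun s' : S => ray c (s' : ℂ)) :=
    locallyFinite_of_re h.fin h.notMem _ (fun s z hz => hz.1)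
  have h2 := h1.comp_injective (g := (Subtype.val : {s' : S // (s' : ℂ) ≠ s} → S))
    Subtype.val_injective
  exact h2.isClosed_iUnion fun s' => isClosed_ray _ _

theorem notMem_others {s z : ℂ} (hs : s ∈ S) (hz : z ∈ ray c s) : z ∉ others S c s := by
  rintro (h1 | h1)
  · rw [mem_singleton_iff] at h1
    exact center_notMem_ray c s (h1 ▸ hz)
  · obtain ⟨s', hs'⟩ := mem_iUnion.1 h1
    exact Set.disjoint_left.1 (h.disj s hs s'.1 s'.1.2 (Ne.symm s'.2)) hz hs'

theorem pt_mem_ray {s : ℂ} (hs : s ∈ S) {x : ℝ} (hx : 1 ≤ x) :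
    c + (x : ℂ) * (s - c) ∈ ray c s := by
  refine ⟨?_, ?_⟩ <;> rw [zeta_mk (h.ne hs)]
  · simpa using hx
  · simp

theorem infDist_pos {s : ℂ} (hs : s ∈ S) {x : ℝ} (hx : 1 ≤ x) :
    0 < Metric.infDist (c + (x : ℂ) * (s - c)) (others S c s) :=
  ((h.isClosed_others s).notMem_iff_infDist_pos (others_nonempty s)).1
    (h.notMem_others hs (h.pt_mem_ray hs hx))

theorem eta_pos {s : ℂ} (hs : s ∈ S) {x : ℝ} (hx : 1 < x) : 0 < eta S c s x := by
  have h1 := h.infDist_pos hs hx.le
  have h2 := h.norm_pos hs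
  exact lt_min (by linarith) (by positivity)

theorem eta_one {s : ℂ} (hs : s ∈ S) : eta S c s 1 = 0 := by
  have h1 := h.infDist_pos hs le_rfl
  have h2 := h.norm_pos hs
  unfold eta
  rw [sub_self]
  exact min_eq_left (by positivity)

theorem eta_nonneg {s : ℂ} (hs : s ∈ S) {x : ℝ} (hx : 1 ≤ x) : 0 ≤ eta S c s x := by
  rcases hx.eq_or_lt with rfl | hx
  · rw [h.eta_one hs]
  · exact (h.eta_pos hs hx).le

theorem ray_subset_core {s : ℂ} (hs : s ∈ S) : ray c s ⊆ core S c s := by
  rintro z ⟨h1, h2⟩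
  change 2 * |(zeta c s z).im| ≤ eta S c s (zeta c s z).re
  rw [h2, abs_zero, mul_zero]
  exact h.eta_nonneg hs h1

theorem mem_strip_of_mem_core {s z : ℂ} (hs : s ∈ S) (hz : z ∈ core S c s) (hne : z ≠ s) :
    z ∈ strip S c s := by
  have h1 : 2 * |(zeta c s z).im| ≤ eta S c s (zeta c s z).re := hz
  have h2 := one_le_of_mem_core hz
  change |(zeta c s z).im| < eta S c s (zeta c s z).re
  rcases h2.eq_or_lt with h3 | h3
  · exfalso
    rw [← h3, h.eta_one hs] at h1
    have h4 : (zeta c s z).im = 0 := by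
      have := abs_nonneg (zeta c s z).im
      exact abs_eq_zero.1 (by linarith)
    have h5 : zeta c s z = 1 := Complex.ext (by simp [← h3]) (by simp [h4])
    apply hne
    rw [eq_of_zeta (z := z) (h.ne hs), h5]
    ring
  · have h4 := h.eta_pos hs h3
    have := abs_nonneg (zeta c s z).im
    linarith

/-- Points of the strip are much closer to the own ray than the own ray is to the others. -/
theorem dist_lt {s z : ℂ} (hs : s ∈ S) (hz : z ∈ strip S c s) {y : ℂ} (hy : y ∈ others S c s) :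
    2 * dist z (c + ((zeta c s z).re : ℂ) * (s - c)) <
      dist (c + ((zeta c s z).re : ℂ) * (s - c)) y := by
  have h1 : |(zeta c s z).im| < eta S c s (zeta c s z).re := hz
  have h2 := h.norm_pos hs
  have h3 : dist z (c + ((zeta c s z).re : ℂ) * (s - c)) = |(zeta c s z).im| * ‖s - c‖ := by
    rw [dist_eq_norm]
    have e : z - (c + ((zeta c s z).re : ℂ) * (s - c)) =
        ((zeta c s z).im * Complex.I) * (s - c) := by
      conv_lhs => rw [eq_of_zeta (z := z) (h.ne hs)]
      rw [zeta_mk (h.ne hs)]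
      conv_lhs => rw [← Complex.re_add_im (zeta c s z)]
      simp only [Complex.add_re, Complex.ofReal_re, Complex.mul_re, Complex.I_re, mul_zero,
        Complex.ofReal_im, Complex.I_im, mul_one, sub_self, add_zero]
      ring
    rw [e]
    simp
  have h4 : eta S c s (zeta c s z).re ≤
      Metric.infDist (c + ((zeta c s z).re : ℂ) * (s - c)) (others S c s) / (2 * ‖s - c‖) :=
    min_le_right _ _
  have h5 := Metric.infDist_le_dist_of_mem (x := c + ((zeta c s z).re : ℂ) * (s - c)) hy
  rw [h3]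
  rw [le_div_iff₀ (by positivity)] at h4
  nlinarith

theorem strip_disjoint {s s' z : ℂ} (hs : s ∈ S) (hs' : s' ∈ S) (hz : z ∈ strip S c s)
    (hz' : z ∈ strip S c s') : s = s' := by
  by_contra hne
  have m1 : c + ((zeta c s z).re : ℂ) * (s - c) ∈ others S c s' :=
    Or.inr (mem_iUnion.2 ⟨⟨⟨s, hs⟩, hne⟩, h.pt_mem_ray hs (one_lt_of_mem_strip hz).le⟩)
  have m2 : c + ((zeta c s' z).re : ℂ) * (s' - c) ∈ others S c s :=
    Or.inr (mem_iUnion.2 ⟨⟨⟨s', hs'⟩, Ne.symm hne⟩, h.pt_mem_ray hs' (one_lt_of_mem_strip hz').le⟩)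
  have h1 := h.dist_lt hs hz m2
  have h2 := h.dist_lt hs' hz' m1
  have h3 := dist_triangle_left (c + ((zeta c s z).re : ℂ) * (s - c))
    (c + ((zeta c s' z).re : ℂ) * (s' - c)) z
  rw [dist_comm (c + ((zeta c s' z).re : ℂ) * (s' - c))] at h2
  linarith

theorem notMem_ray_of_mem_strip {s s' z : ℂ} (hs : s ∈ S) (hs' : s' ∈ S) (hz : z ∈ strip S c s)
    (hne : s' ≠ s) : z ∉ ray c s' := by
  intro hz'
  have m2 : z ∈ others S c s := Or.inr (mem_iUnion.2 ⟨⟨⟨s', hs'⟩, hne⟩, hz'⟩)
  have h1 := h.dist_lt hs hz m2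
  rw [dist_comm] at h1
  have := dist_nonneg (x := c + ((zeta c s z).re : ℂ) * (s - c)) (y := z)
  linarith

theorem notMem_of_mem_strip {s z : ℂ} (hs : s ∈ S) (hz : z ∈ strip S c s) : z ∉ S := by
  intro hzS
  by_cases e : z = s
  · have := one_lt_of_mem_strip hz
    rw [e, zeta_self (h.ne hs)] at this
    simp at this
  · exact h.notMem_ray_of_mem_strip hs hzS hz e (self_mem_ray (h.ne hzS))

theorem locallyFinite_strip : LocallyFinite (fun s : S => strip S c (s : ℂ)) :=
  locallyFinite_of_re h.fin h.notMem _ (fun s z hz => (one_lt_of_mem_strip hz).le)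

theorem locallyFinite_core : LocallyFinite (fun s : S => core S c (s : ℂ)) :=
  locallyFinite_of_re h.fin h.notMem _ (fun s z hz => one_le_of_mem_core hz)

theorem isClosed_cores : IsClosed (⋃ s : S, core S c (s : ℂ)) :=
  h.locallyFinite_core.isClosed_iUnion fun _ => isClosed_core _

theorem isClosed_rays : IsClosed (⋃ s : S, ray c (s : ℂ)) :=
  (locallyFinite_of_re h.fin h.notMem _ (fun s z hz => hz.1) :
    LocallyFinite (fun s' : S => ray c (s' : ℂ))).isClosed_iUnion fun _ => isClosed_ray _ _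

end Centre

/-! ### Coordinates on the strip -/

/-- The point of the strip with coordinates `x` and `t`. -/
noncomputable def pt (S : Set ℂ) (c s : ℂ) (x t : ℝ) : ℂ :=
  c + ((x : ℂ) + (t * eta S c s x : ℝ) * Complex.I) * (s - c)

/-- The transversal coordinate. -/
noncomputable def tco (S : Set ℂ) (c s z : ℂ) : ℝ :=
  (zeta c s z).im / eta S c s (zeta c s z).re

namespace Centre

variable (h : Centre S c)

include h

theorem zeta_pt {s : ℂ} (hs : s ∈ S) (x t : ℝ) :
    zeta c s (pt S c s x t) = (x : ℂ) + (t * eta S c s x : ℝ) * Complex.I := by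
  unfold pt
  rw [zeta_mk (h.ne hs)]

theorem re_pt {s : ℂ} (hs : s ∈ S) (x t : ℝ) : (zeta c s (pt S c s x t)).re = x := by
  rw [h.zeta_pt hs]
  simp

theorem im_pt {s : ℂ} (hs : s ∈ S) (x t : ℝ) :
    (zeta c s (pt S c s x t)).im = t * eta S c s x := by
  rw [h.zeta_pt hs]
  simp

theorem pt_mem_strip {s : ℂ} (hs : s ∈ S) {x t : ℝ} (hx : 1 < x) (ht : |t| < 1) :
    pt S c s x t ∈ strip S c s := by
  change |(zeta c s (pt S c s x t)).im| < eta S c s (zeta c s (pt S c s x t)).re
  rw [h.re_pt hs, h.im_pt hs]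
  have h1 := h.eta_pos hs hx
  rw [abs_mul, abs_of_pos h1]
  nlinarith

theorem tco_pt {s : ℂ} (hs : s ∈ S) {x t : ℝ} (hx : 1 < x) : tco S c s (pt S c s x t) = t := by
  unfold tco
  rw [h.re_pt hs, h.im_pt hs]
  have h1 := h.eta_pos hs hx
  field_simp

theorem abs_tco_lt {s z : ℂ} (hs : s ∈ S) (hz : z ∈ strip S c s) : |tco S c s z| < 1 := by
  have h1 : |(zeta c s z).im| < eta S c s (zeta c s z).re := hz
  have h2 := h.eta_pos hs (one_lt_of_mem_strip hz)
  unfold tco
  rw [abs_div, abs_of_pos h2, div_lt_one h2]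
  exact h1

theorem pt_tco {s z : ℂ} (hs : s ∈ S) (hz : z ∈ strip S c s) :
    pt S c s (zeta c s z).re (tco S c s z) = z := by
  have h2 := h.eta_pos hs (one_lt_of_mem_strip hz)
  unfold pt tco
  rw [div_mul_cancel₀ _ h2.ne', Complex.re_add_im]
  exact (eq_of_zeta (h.ne hs)).symm

theorem continuousOn_tco {s : ℂ} (hs : s ∈ S) : ContinuousOn (tco S c s) (strip S c s) := by
  unfold tco
  refine ContinuousOn.div ?_ ?_ ?_
  · exact (Complex.continuous_im.comp (continuous_zeta c s)).continuousOn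
  · exact ((continuous_eta s).comp (Complex.continuous_re.comp (continuous_zeta c s))).continuousOn
  · intro z hz
    exact (h.eta_pos hs (one_lt_of_mem_strip hz)).ne'

theorem half_lt_of_notMem_core {s z : ℂ} (hs : s ∈ S) (hz : z ∈ strip S c s)
    (hz' : z ∉ core S c s) : 1 / 2 < |tco S c s z| := by
  have h1 : ¬ 2 * |(zeta c s z).im| ≤ eta S c s (zeta c s z).re := hz'
  push Not at h1
  have h2 := h.eta_pos hs (one_lt_of_mem_strip hz)
  unfold tco
  rw [abs_div, abs_of_pos h2, lt_div_iff₀ h2]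
  linarith

/-- The strip without the ray avoids all rays. -/
theorem pt_notMem_rays {s : ℂ} (hs : s ∈ S) {x t : ℝ} (hx : 1 < x) (ht : |t| < 1) (h0 : t ≠ 0) :
    pt S c s x t ∉ ⋃ s : S, ray c (s : ℂ) := by
  intro hmem
  obtain ⟨s', hs'⟩ := mem_iUnion.1 hmem
  have hz := h.pt_mem_strip hs hx ht
  by_cases e : (s' : ℂ) = s
  · rw [e] at hs'
    have := hs'.2
    rw [h.im_pt hs] at this
    rcases mul_eq_zero.1 this with h1 | h1
    · exact h0 h1
    · exact (h.eta_pos hs hx).ne' h1
  · exact h.notMem_ray_of_mem_strip hs s'.2 hz e hs'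

end Centre

theorem continuous_pt (s : ℂ) : Continuous fun y : ℝ × ℝ => pt S c s y.1 y.2 := by
  unfold pt
  have h1 : Continuous fun y : ℝ × ℝ => eta S c s y.1 := (continuous_eta s).comp continuous_fst
  fun_prop

end Pool.Agent.Helper68_Cuts
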